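import Pool.Agent.Helper31.OL.Rec
import Pool.Agent.Helper81.Gen4.Main

/-!
# Quantifiers with an oracle
-/

set_option autoImplicit false
set_option linter.dupNamespace false

namespace Pool.Agent.Helper31.OL

open Pool.Agent.Helper65 Pool.Agent.Helper65.LinSpace
open Pool.Agent.Helper78.Avg Pool.Agent.Helper78.Gen2

variable {κ α β γ : Type} [Ctx κ] [Ctx α] [Ctx β] [Ctx γ] {acc : κ → ℕ}

/-- One step of the evaluation with the value `v` of the leaf. -/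
def stepV (N t S v : ℕ) : ℕ :=
  tab 2 (N + 1) fun j => ifz (eq01 j (c1 N t)) (dig 2 S j) (fold N S (min v 1) (c1 N t))

theorem stepV_lt (N t S v : ℕ) (j : ℕ) :
    ifz (eq01 j (c1 N t)) (dig 2 S j) (fold N S (min v 1) (c1 N t)) < 2 := by
  unfold ifz
  split_ifs
  · exact dig_lt (by norm_num) _ _
  · refine Nat.lt_succ_of_le ?_
    unfold fold
    cases c1 N t with
    | zero => exact min_le_right _ _
    | succ i => exact opN_le _ _ _ _

theorem stepV_eq (N : ℕ) (F : ℕ → ℕ) (t S : ℕ) :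
    stepA N F t S = stepV N t S (lt01 0 (F t)) := by
  unfold stepA stepV
  rw [min_eq_left (lt01_le_one _ _)]

theorem ls_stepV {N C t S v : α → ℕ} (hN : LS N) (hC : LS C) (ht : LS t) (hS : LS S) (hv : LS v)
    (hb : ∀ a, 2 ^ (N a + 1) ≤ C a) : LS (fun a => stepV (N a) (t a) (S a) (v a)) := by
  unfold stepV
  refine LS.tab (q := fun _ => 2) (m := fun z : α => N z + 1)
      (C := C)
      (d := fun z j => ifz (eq01 j (c1 (N z) (t z)))
        (dig 2 (S z) j)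
        (fold (N z) (S z) (min (v z) 1) (c1 (N z) (t z))))
      ?_ (by fun_prop) (by fun_prop) hC ?_ hb
  · have h1 : LS (fun z : α => fold (N z) (S z) (min (v z) 1) (c1 (N z) (t z))) :=
      LS.fold hN hS (by fun_prop) (by fun_prop)
    have h2 : LS (fun p : α × ℕ => fold (N p.1) (S p.1) (min (v p.1) 1) (c1 (N p.1) (t p.1))) :=
      LS.comp (f := fun p : α × ℕ => p.1) h1 (by fun_prop)
    exact LS.ifz (by fun_prop) (by fun_prop) h2
  · exact fun z i _ => stepV_lt _ _ _ _ _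

theorem OL.altN {N C : α → ℕ} {F : α → ℕ → ℕ} (hN : LS N) (hC : LS C)
    (hF : OL acc (fun z : α × ℕ => F z.1 z.2)) (hb : ∀ a, 2 ^ (N a + 1) ≤ C a) :
    OL acc (fun a => altN (N a) (F a)) := by
  unfold Pool.Agent.Helper78.Gen2.altN
  have hpow : LS (fun a => 2 ^ N a) := LS.pow_of_le (f := fun _ => 2) (by fun_prop) hN hC
    fun a => (Nat.pow_le_pow_right (by norm_num) (Nat.le_succ _)).trans (hb a)
  have hF2 : OL acc (fun z : α × ℕ × ℕ => LinSpace.lt01 0 (F z.1 z.2.1)) :=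
    OL.lt01 (OL.of_ls (LS.const 0)) (OL.comp_ls (f := fun z : α × ℕ × ℕ => (z.1, z.2.1)) hF
      (by fun_prop))
  have hV : LS (fun z : (α × ℕ × ℕ) × ℕ => stepV (N z.1.1) z.1.2.1 z.1.2.2 z.2) :=
    ls_stepV (C := fun z : (α × ℕ × ℕ) × ℕ => C z.1.1) (by fun_prop) (by fun_prop) (by fun_prop)
      (by fun_prop) (by fun_prop) fun z => hb _
  have hstep : OL acc (fun z : α × ℕ × ℕ => stepA (N z.1) (F z.1) z.2.1 z.2.2) := by
    refine OL.congr (OL.ls_comp hV (OL.prodMk (OL.of_ls (LS.id (α := α × ℕ × ℕ))) hF2))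
      fun z => ?_
    rw [stepV_eq]
  have hlt : ∀ a i, LinSpace.nrec 0 (stepA (N a) (F a)) i ≤ C a := by
    intro a i
    cases i with
    | zero => exact Nat.zero_le _
    | succ i =>
      rw [nrec_succ, stepV_eq]
      exact le_of_lt (lt_of_lt_of_le (tab_lt (q := 2) fun j _ => stepV_lt _ _ _ _ _) (hb a))
  have h1 : OL acc (fun a => LinSpace.nrec 0 (stepA (N a) (F a)) (2 ^ N a)) :=
    OL.nrec (G := fun _ => 0) (N := fun a => 2 ^ N a) (C := C) (K := fun a => stepA (N a) (F a))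
      (OL.of_ls (LS.const 0)) (OL.of_ls hpow) hC hstep fun a i _ => hlt a i
  exact OL.ls_comp (g := fun z : ℕ × ℕ => dig 2 z.2 z.1) (by fun_prop)
    (OL.prodMk (OL.of_ls hN) h1)

section UQ

variable (acc : ℕ → ℕ → ℕ → ℕ → ℕ) (N : ℕ → ℕ)

/-- The oracle. -/
def orc (z : ℕ × ℕ × ℕ × ℕ) : ℕ := acc z.1 z.2.1 z.2.2.1 z.2.2.2

variable {N}

/-- The arguments are `e, b, x`. -/
theorem ol_UA (hN : LS N) (c : ℕ) :
    OL (orc acc) (fun z : ℕ × ℕ × ℕ => UA acc N c z.1 z.2.1 z.2.2) := by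
  unfold Pool.Agent.Helper78.Gen2.UA
  refine OL.altN (α := ℕ × ℕ × ℕ) (acc := orc acc) (N := fun z : ℕ × ℕ × ℕ => c * Nat.log 2 z.2.2)
    (C := fun z => (z.2.2 + 2) ^ (2 * (c + 1)))
    (F := fun z t => ∑ S ∈ Finset.range (N z.2.2),
      LinSpace.lt01 0 (acc z.1 z.2.2 (catN z.2.1
        (leafW (c * Nat.log 2 z.2.2) t)) S))
    (by fun_prop) (by fun_prop) ?_ (fun z => two_pow_le c z.2.2)
  have hleaf : LS (fun z : ((ℕ × ℕ × ℕ) × ℕ) × ℕ => leafW (c * Nat.log 2 z.1.1.2.2) z.1.2) :=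
    LS.leafW c (by fun_prop) (by fun_prop)
  refine OL.sum_le' (α := (ℕ × ℕ × ℕ) × ℕ) (acc := orc acc) (N := fun z => N z.1.2.2) (B := fun _ => 1)
    (f := fun z S => LinSpace.lt01 0 (acc z.1.1 z.1.2.2 (catN z.1.2.1
      (leafW (c * Nat.log 2 z.1.2.2) z.2)) S)) ?_
    (LS.comp (f := fun z : (ℕ × ℕ × ℕ) × ℕ => z.1.2.2) hN (by fun_prop))
    (by fun_prop) (fun z S _ => lt01_le_one _ _)
  exact OL.comp_ls (g := fun z => bit (orc acc) z) (f := fun z : ((ℕ × ℕ × ℕ) × ℕ) × ℕ =>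
    (z.1.1.1, z.1.1.2.2, catN z.1.1.2.1
      (leafW (c * Nat.log 2 z.1.1.2.2) z.1.2), z.2)) OL.ask0 (by fun_prop)

theorem ol_UM (hN : LS N) (c : ℕ) : OL (orc acc) (fun z : ℕ × ℕ × ℕ =>
    Pool.Agent.Helper81.Gen4.UM acc N c z.1 z.2.1 z.2.2) := by
  unfold Pool.Agent.Helper81.Gen4.UM
  have hp : LS (fun z : ℕ × ℕ × ℕ => 2 ^ (c * Nat.log 2 z.2.2)) :=
    Pool.Agent.Helper81.Gen4.LS.pow2 c (by fun_prop)
  refine OL.lt01 (OL.of_ls hp) (OL.mul (OL.of_ls (LS.const 2)) ?_)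
  refine OL.sum_le' (α := ℕ × ℕ × ℕ) (acc := orc acc) (N := fun z : ℕ × ℕ × ℕ => 2 ^ (c * Nat.log 2 z.2.2)) (B := fun _ => 1)
    (f := fun z t => LinSpace.lt01 0 (UA acc N c z.1 (catN z.2.1
      (leafW (c * Nat.log 2 z.2.2) t)) z.2.2))
    ?_ hp (LS.const 1) (fun a t _ => lt01_le_one _ _)
  have hleaf : LS (fun z : (ℕ × ℕ × ℕ) × ℕ => leafW (c * Nat.log 2 z.1.2.2) z.2) :=
    LS.leafW c (by fun_prop) (by fun_prop)
  exact OL.lt01 (OL.of_ls (LS.const 0)) (OL.comp_ls (f := fun z : (ℕ × ℕ × ℕ) × ℕ =>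
    (z.1.1, catN z.1.2.1 (leafW (c * Nat.log 2 z.1.2.2) z.2), z.1.2.2))
    (ol_UA acc hN c) (by fun_prop))

theorem ol_UQ (hN : LS N) (c : ℕ) : OL (orc acc) (fun z : ℕ × ℕ × ℕ =>
    Pool.Agent.Helper81.Gen4.UQ acc N c z.1 z.2.1 z.2.2) := by
  unfold Pool.Agent.Helper81.Gen4.UQ
  refine OL.altN (α := ℕ × ℕ × ℕ) (acc := orc acc) (N := fun z : ℕ × ℕ × ℕ => c * Nat.log 2 z.2.2)
    (C := fun z => (z.2.2 + 2) ^ (2 * (c + 1)))
    (F := fun z t => Pool.Agent.Helper81.Gen4.UM acc N c z.1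
      (catN z.2.1 (leafW (c * Nat.log 2 z.2.2) t)) z.2.2)
    (by fun_prop) (by fun_prop) ?_ (fun z => two_pow_le c z.2.2)
  have hleaf : LS (fun z : (ℕ × ℕ × ℕ) × ℕ => leafW (c * Nat.log 2 z.1.2.2) z.2) :=
    LS.leafW c (by fun_prop) (by fun_prop)
  exact OL.comp_ls (f := fun z : (ℕ × ℕ × ℕ) × ℕ =>
    (z.1.1, catN z.1.2.1 (leafW (c * Nat.log 2 z.1.2.2) z.2), z.1.2.2))
    (ol_UM acc hN c) (by fun_prop)

end UQ

end Pool.Agent.Helper31.OL
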