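import Pool.Agent.Helper31.OL.Defs

/-!
# Closure properties
-/

set_option autoImplicit false
set_option linter.dupNamespace false

namespace Pool.Agent.Helper31.OL

open Pool.Agent.Helper65.LinSpace

variable {κ α β γ : Type} [Ctx κ] [Ctx α] [Ctx β] [Ctx γ]

/-! ### Growth -/

theorem E2.growth {F : (ℕ → ℕ) → ℕ} (hF : E2 F) :
    ∃ k : ℕ, ∀ (e : ℕ → ℕ) (m : ℕ), (∀ i, e i ≤ m) → F e ≤ (m + 2) ^ k := by
  induction hF with
  | var i => exact ⟨1, fun e m h => by
      rw [pow_one]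
      exact (h i).trans (Nat.le_add_right m 2)⟩
  | zero => exact ⟨0, fun e m h => Nat.zero_le _⟩
  | succ _ ih =>
    obtain ⟨k, hk⟩ := ih
    refine ⟨k + 1, fun e m h => ?_⟩
    have h1 := hk e m h
    have h2 : 1 ≤ (m + 2) ^ k := Nat.one_le_pow _ _ (by omega)
    rw [pow_succ]
    nlinarith
  | mul _ _ ih1 ih2 =>
    obtain ⟨k, hk⟩ := ih1
    obtain ⟨l, hl⟩ := ih2
    refine ⟨k + l, fun e m h => ?_⟩
    rw [pow_add]
    exact Nat.mul_le_mul (hk e m h) (hl e m h)
  | bind _ _ ih1 ih2 =>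
    obtain ⟨k, hk⟩ := ih1
    obtain ⟨l, hl⟩ := ih2
    refine ⟨(k + 2) * l, fun e m h => ?_⟩
    have h1 := hk e m h
    have h0 : 1 ≤ (m + 2) ^ k := Nat.one_le_pow _ _ (by omega)
    have h2 := hl (cons _ e) (max m ((m + 2) ^ k)) (by
      rintro (_ | i)
      · exact le_trans h1 (le_max_right _ _)
      · exact le_trans (h i) (le_max_left _ _))
    refine h2.trans ?_
    rw [pow_mul]
    refine Nat.pow_le_pow_left ?_ l
    have h3 : (m + 2) ^ (k + 2) = (m + 2) ^ k * ((m + 2) * (m + 2)) := by ring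
    rw [h3]
    generalize (m + 2) ^ k = P at *
    have h5 : P * (2 * (m + 2)) ≤ P * ((m + 2) * (m + 2)) :=
      Nat.mul_le_mul_left _ (Nat.mul_le_mul_right _ (by omega))
    have h6 : P * (2 * (m + 2)) = 2 * (P * m) + 4 * P := by ring
    have h7 : 1 * m ≤ P * m := Nat.mul_le_mul_right _ h0
    omega
  | ren σ _ ih =>
    obtain ⟨k, hk⟩ := ih
    exact ⟨k, fun e m h => hk _ m fun i => h _⟩
  | prec _ _ _ _ hb _ _ _ ih =>
    obtain ⟨k, hk⟩ := ih
    exact ⟨k, fun e m h => (hb e _ le_rfl).trans (hk e m h)⟩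

theorem LS.growth {f : β → γ} (hf : LS f) :
    ∃ k : ℕ, ∀ (b : β) (m : ℕ), (∀ j, Ctx.enc b j ≤ m) → ∀ j, Ctx.enc (f b) j ≤ (m + 2) ^ k := by
  have h1 : ∀ n ≤ Ctx.ar γ, ∃ k : ℕ, ∀ (b : β) (m : ℕ), (∀ j, Ctx.enc b j ≤ m) → ∀ j < n,
      Ctx.enc (f b) j ≤ (m + 2) ^ k := by
    intro n
    induction n with
    | zero => exact fun _ => ⟨0, fun _ _ _ j hj => absurd hj (Nat.not_lt_zero j)⟩
    | succ n ih =>
      intro hn
      obtain ⟨k, hk⟩ := ih (by omega)
      obtain ⟨F, hF, hF'⟩ := hf n (by omega)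
      obtain ⟨l, hl⟩ := E2.growth hF
      refine ⟨k + l, fun b m hb j hj => ?_⟩
      have h2 : (m + 2) ^ k ≤ (m + 2) ^ (k + l) := Nat.pow_le_pow_right (by omega) (by omega)
      have h3 : (m + 2) ^ l ≤ (m + 2) ^ (k + l) := Nat.pow_le_pow_right (by omega) (by omega)
      rcases Nat.lt_succ_iff_lt_or_eq.1 hj with h4 | h4
      · exact (hk b m hb j h4).trans h2
      · subst h4
        rw [← hF']
        exact (hl _ m hb).trans h3
  obtain ⟨k, hk⟩ := h1 _ le_rfl
  refine ⟨k, fun b m hb j => ?_⟩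
  rcases Nat.lt_or_ge j (Ctx.ar γ) with h | h
  · exact hk b m hb j h
  · rw [Ctx.enc_of_le _ h]
    exact Nat.zero_le _

theorem LS.growth1 {f : β → ℕ} (hf : LS f) :
    ∃ k : ℕ, ∀ (b : β) (m : ℕ), (∀ j, Ctx.enc b j ≤ m) → f b ≤ (m + 2) ^ k := by
  obtain ⟨k, hk⟩ := LS.growth hf
  exact ⟨k, fun b m hb => hk b m hb 0⟩

/-- The sum of all entries. -/
def tot (a : α) : ℕ := ∑ j ∈ Finset.range (Ctx.ar α), Ctx.enc a j

theorem le_tot (a : α) (j : ℕ) : Ctx.enc a j ≤ tot a := by
  rcases Nat.lt_or_ge j (Ctx.ar α) with h | h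
  · exact Finset.single_le_sum (f := fun j => Ctx.enc a j) (fun _ _ => Nat.zero_le _)
      (Finset.mem_range.2 h)
  · rw [Ctx.enc_of_le _ h]
    exact Nat.zero_le _

theorem LS.enc1 {f : α → β} (hf : LS f) (i : ℕ) : LS (fun a => Ctx.enc (f a) i) := by
  rcases Nat.lt_or_ge i (Ctx.ar β) with h | h
  · obtain ⟨F, hF, hF'⟩ := hf i h
    exact LS.nat_iff.2 ⟨F, hF, hF'⟩
  · refine LS.congr (LS.const 0) fun a => ?_
    rw [Ctx.enc_of_le _ h]

theorem LS.tot {f : α → β} (hf : LS f) : LS (fun a => tot (f a)) := by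
  have h : ∀ n : ℕ, LS (fun a => ∑ j ∈ Finset.range n, Ctx.enc (f a) j) := by
    intro n
    induction n with
    | zero =>
      refine LS.congr (LS.const 0) fun a => ?_
      simp
    | succ n ih =>
      refine LS.congr (LS.add ih (LS.enc1 hf n)) fun a => ?_
      rw [Finset.sum_range_succ]
  exact h _

theorem LS.ite {c : α → ℕ} {f g : α → β} (hc : LS c) (hf : LS f) (hg : LS g) :
    LS (fun a => if c a = 0 then f a else g a) := by
  intro i hi
  have h1 := LS.ifz hc (LS.enc1 hf i) (LS.enc1 hg i)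
  obtain ⟨F, hF, hF'⟩ := LS.nat_iff.1 h1
  refine ⟨F, hF, fun a => ?_⟩
  rw [hF']
  unfold ifz
  by_cases h : c a = 0
  · simp only [h, if_true]
  · simp only [h, if_false]

/-- All entries are zero. -/
def def0 (β : Type) [Ctx β] : β := Ctx.dec fun _ => 0

theorem enc_def0 (j : ℕ) : Ctx.enc (def0 β) j = 0 := by
  unfold def0
  rw [Ctx.enc_dec]
  unfold cut
  split_ifs <;> rfl

theorem enc_pair (p : α × β) (m : ℕ) (h1 : ∀ j, Ctx.enc p.1 j ≤ m) (h2 : ∀ j, Ctx.enc p.2 j ≤ m)
    (j : ℕ) : Ctx.enc p j ≤ m := by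
  show (if j < Ctx.ar α then Ctx.enc p.1 j else Ctx.enc p.2 (j - Ctx.ar α)) ≤ m
  split_ifs
  · exact h1 _
  · exact h2 _

theorem enc_nat (n m : ℕ) (h : n ≤ m) (j : ℕ) : Ctx.enc n j ≤ m := by
  show cons n (fun _ => 0) j ≤ m
  rcases j with _ | j
  · exact h
  · exact Nat.zero_le _

theorem enc_fst {p : α × β} {m : ℕ} (h : ∀ j, Ctx.enc p j ≤ m) (j : ℕ) : Ctx.enc p.1 j ≤ m := by
  rcases Nat.lt_or_ge j (Ctx.ar α) with h1 | h1
  · have h2 := h j
    have h3 : Ctx.enc p j = Ctx.enc p.1 j := if_pos h1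
    rwa [h3] at h2
  · rw [Ctx.enc_of_le _ h1]
    exact Nat.zero_le _

theorem enc_snd {p : α × β} {m : ℕ} (h : ∀ j, Ctx.enc p j ≤ m) (j : ℕ) : Ctx.enc p.2 j ≤ m := by
  have h2 := h (j + Ctx.ar α)
  have h3 : Ctx.enc p (j + Ctx.ar α) = Ctx.enc p.2 j := by
    show (if j + Ctx.ar α < Ctx.ar α then _ else Ctx.enc p.2 (j + Ctx.ar α - Ctx.ar α)) = _
    rw [if_neg (by omega), Nat.add_sub_cancel]
  rwa [h3] at h2

theorem nat_le_enc {n m : ℕ} (h : ∀ j, Ctx.enc n j ≤ m) : n ≤ m := h 0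

/-! ### Runs -/

/-- `s'` is reached from `s` through states with `h = 0`, and all entries are at most `m`. -/
inductive Rn {B : Type} [Ctx B] (f : B → B) (h : B → ℕ) (m : ℕ) : B → B → Prop
  | refl (s : B) (hs : ∀ j, Ctx.enc s j ≤ m) : Rn f h m s s
  | step (s s' : B) (hh : h s = 0) (hs : ∀ j, Ctx.enc s j ≤ m) (r : Rn f h m (f s) s') :
      Rn f h m s s'

section runs

variable {B B' : Type} [Ctx B] [Ctx B'] {f : B → B} {h : B → ℕ} {m : ℕ}

theorem Rn.trans {s s' s'' : B} (h1 : Rn f h m s s') (h2 : Rn f h m s' s'') :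
    Rn f h m s s'' := by
  induction h1 with
  | refl => exact h2
  | step s s' hh hs _ ih => exact Rn.step s _ hh hs (ih h2)

theorem Rn.bound {s s' : B} (h1 : Rn f h m s s') : ∀ j, Ctx.enc s' j ≤ m := by
  induction h1 with
  | refl s hs => exact hs
  | step _ _ _ _ _ ih => exact ih

theorem Rn.map {f' : B' → B'} {h' : B' → ℕ} {m' : ℕ} (E : B → B')
    (hE : ∀ s, h s = 0 → h' (E s) = 0 ∧ f' (E s) = E (f s))
    (hb : ∀ s, (∀ j, Ctx.enc s j ≤ m) → ∀ j, Ctx.enc (E s) j ≤ m') {s s' : B}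
    (h1 : Rn f h m s s') : Rn f' h' m' (E s) (E s') := by
  induction h1 with
  | refl s hs => exact Rn.refl _ (hb s hs)
  | step s s' hh hs _ ih =>
    refine Rn.step _ _ (hE s hh).1 (hb s hs) ?_
    rw [(hE s hh).2]
    exact ih

theorem Rn.iff {s : B} (P : B → Prop) : (∃ s', Rn f h m s s' ∧ h s' ≠ 0 ∧ P s') ↔
    ∃ t, h (f^[t] s) ≠ 0 ∧ (∀ i < t, h (f^[i] s) = 0) ∧ P (f^[t] s) ∧
      ∀ i ≤ t, ∀ j, Ctx.enc (f^[i] s) j ≤ m := by
  constructor
  · rintro ⟨s', h1, h2, h3⟩
    induction h1 with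
    | refl s hs =>
      refine ⟨0, h2, fun i hi => absurd hi (Nat.not_lt_zero i), h3, fun i hi => ?_⟩
      have : i = 0 := by omega
      subst this
      exact hs
    | step s s' hh hs _ ih =>
      obtain ⟨t, h4, h5, h6, h7⟩ := ih h2 h3
      refine ⟨t + 1, h4, ?_, h6, ?_⟩
      · rintro (_ | i) hi
        · exact hh
        · exact h5 i (by omega)
      · rintro (_ | i) hi
        · exact hs
        · exact h7 i (by omega)
  · rintro ⟨t, h1, h2, h3, h4⟩
    induction t generalizing s with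
    | zero => exact ⟨s, Rn.refl s (h4 0 le_rfl), h1, h3⟩
    | succ t ih =>
      obtain ⟨s', h5, h6⟩ := ih (s := f s) h1 (fun i hi => h2 (i + 1) (by omega)) h3
        fun i hi => h4 (i + 1) (by omega)
      exact ⟨s', Rn.step s s' (h2 0 (by omega)) (h4 0 (by omega)) h5, h6⟩

end runs

/-- The condition for the runs. -/
theorem comp_iff (M : Lp κ α γ) (acc : κ → ℕ) (f : α → γ) : M.Comp acc f ↔
    ∀ a, ∃ s', Rn (stp acc M.d M.q) M.h (M.C a) (M.I a) s' ∧ M.h s' ≠ 0 ∧ M.o s' = f a := by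
  refine forall_congr' fun a => ?_
  exact (Rn.iff (s := M.I a) (fun s' => M.o s' = f a)).symm

variable {acc : κ → ℕ}

theorem OL.congr {f g : α → γ} (hf : OL acc f) (h : ∀ a, g a = f a) : OL acc g := by
  have : g = f := funext h
  rwa [this]

/-! ### Functions in linear space, and the oracle -/

theorem OL.of_ls {f : α → γ} (hf : LS f) : OL acc f := by
  refine ⟨{ B := α, I := fun a => a, d := fun z => z.1, q := fun _ => def0 κ, h := fun _ => 1,
            o := f, C := fun a => tot a, lI := LS.id, ld := LS.fst, lq := LS.const _,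
            lh := LS.const _, lo := hf, lC := LS.tot LS.id }, ?_⟩
  rw [comp_iff]
  exact fun a => ⟨a, Rn.refl _ (le_tot a), one_ne_zero, rfl⟩

theorem OL.ask0 : OL acc (fun z : κ => bit acc z) := by
  refine ⟨{ B := κ × ℕ × ℕ, I := fun z => (z, 0, 0), d := fun p => (p.1.1, 1, p.2),
            q := fun s => s.1, h := fun s => s.2.1, o := fun s => s.2.2,
            C := fun a => tot a + 1, lI := by fun_prop, ld := by fun_prop, lq := by fun_prop,
            lh := by fun_prop, lo := by fun_prop, lC := LS.succ (LS.tot LS.id) }, ?_⟩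
  rw [comp_iff]
  intro z
  have hb : bit acc z ≤ 1 := by
    unfold bit lt01
    split_ifs <;> omega
  have he : ∀ j, Ctx.enc z j ≤ tot z + 1 := fun j => (le_tot z j).trans (Nat.le_succ _)
  have h0 : 0 ≤ tot z + 1 := Nat.zero_le _
  have h1 : 1 ≤ tot z + 1 := Nat.le_add_left _ _
  have h2 : bit acc z ≤ tot z + 1 := hb.trans h1
  refine ⟨(z, 1, bit acc z), Rn.step _ _ rfl ?_ (Rn.refl _ ?_), one_ne_zero, rfl⟩
  · exact enc_pair _ _ he (enc_pair _ _ (enc_nat _ _ h0) (enc_nat _ _ h0))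
  · exact enc_pair _ _ he (enc_pair _ _ (enc_nat _ _ h1) (enc_nat _ _ h2))

/-! ### Composition -/

theorem OL.comp {g : β → γ} {f : α → β} (hg : OL acc g) (hf : OL acc f) :
    OL acc (fun a => g (f a)) := by
  obtain ⟨G, hG⟩ := hg
  obtain ⟨F, hF⟩ := hf
  rw [comp_iff] at hG hF
  obtain ⟨k1, hk1⟩ := LS.growth F.lo
  obtain ⟨k2, hk2⟩ := LS.growth1 G.lC
  have lI := F.lI
  have ld := F.ld
  have lq := F.lq
  have lh := F.lh
  have lo := F.lo
  have lC := F.lC
  have mI := G.lI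
  have md := G.ld
  have mq := G.lq
  have mh := G.lh
  have mo := G.lo
  have mC := G.lC
  refine ⟨{ B := ℕ × F.B × G.B
            I := fun a => (0, F.I a, def0 G.B)
            d := fun p => if p.1.1 = 0 then
                (if F.h p.1.2.1 = 0 then (0, F.d (p.1.2.1, p.2), p.1.2.2)
                  else (1, p.1.2.1, G.I (F.o p.1.2.1)))
              else (1, p.1.2.1, G.d (p.1.2.2, p.2))
            q := fun s => if s.1 = 0 then F.q s.2.1 else G.q s.2.2
            h := fun s => ifz s.1 0 (G.h s.2.2)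
            o := fun s => G.o s.2.2
            C := fun a => 1 + F.C a + ((F.C a + 2) ^ k1 + 2) ^ k2
            lI := by fun_prop
            ld := LS.ite (by fun_prop) (LS.ite (by fun_prop) (by fun_prop) (by fun_prop))
              (by fun_prop)
            lq := LS.ite (by fun_prop) (by fun_prop) (by fun_prop)
            lh := by fun_prop
            lo := by fun_prop
            lC := LS.add (LS.add (LS.const 1) lC) (LS.pow_const (LS.add (LS.pow_const (LS.add lC
              (LS.const 2)) k1) (LS.const 2)) k2) }, ?_⟩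
  rw [comp_iff]
  intro a
  obtain ⟨s', h1, h2, h3⟩ := hF a
  obtain ⟨s'', h4, h5, h6⟩ := hG (f a)
  have hs' := h1.bound
  have hfa : ∀ j, Ctx.enc (f a) j ≤ (F.C a + 2) ^ k1 := by
    rw [← h3]
    exact hk1 s' _ hs'
  have hCg : G.C (f a) ≤ ((F.C a + 2) ^ k1 + 2) ^ k2 := hk2 _ _ hfa
  have hm1 : 1 ≤ 1 + F.C a + ((F.C a + 2) ^ k1 + 2) ^ k2 := by omega
  have hmF : F.C a ≤ 1 + F.C a + ((F.C a + 2) ^ k1 + 2) ^ k2 := by omega
  have hmG : G.C (f a) ≤ 1 + F.C a + ((F.C a + 2) ^ k1 + 2) ^ k2 := by omega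
  refine ⟨(1, s', s''), ?_, h5, h6⟩
  refine Rn.trans (s' := (0, s', def0 G.B)) ?_ (Rn.step _ _ rfl ?_ ?_)
  · refine Rn.map (fun s => (0, s, def0 G.B)) ?_ ?_ h1
    · intro s hs
      refine ⟨rfl, ?_⟩
      unfold stp
      simp only [if_true, hs]
    · intro s hs
      exact enc_pair _ _ (enc_nat _ _ (Nat.zero_le _)) (enc_pair _ _
        (fun j => (hs j).trans hmF) fun j => (enc_def0 j).trans_le (Nat.zero_le _))
  · exact enc_pair _ _ (enc_nat _ _ (Nat.zero_le _)) (enc_pair _ _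
        (fun j => (hs' j).trans hmF) fun j => (enc_def0 j).trans_le (Nat.zero_le _))
  · have e1 : stp acc (fun p : (ℕ × F.B × G.B) × ℕ => if p.1.1 = 0 then
                (if F.h p.1.2.1 = 0 then (0, F.d (p.1.2.1, p.2), p.1.2.2)
                  else (1, p.1.2.1, G.I (F.o p.1.2.1)))
              else (1, p.1.2.1, G.d (p.1.2.2, p.2)))
              (fun s : ℕ × F.B × G.B => if s.1 = 0 then F.q s.2.1 else G.q s.2.2)
              (0, s', def0 G.B) = (1, s', G.I (f a)) := by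
      unfold stp
      simp only [if_true, h2, if_false, h3]
    rw [e1]
    refine Rn.map (fun s => (1, s', s)) ?_ ?_ h4
    · intro s hs
      refine ⟨hs, ?_⟩
      unfold stp
      simp only [one_ne_zero, if_false]
    · intro s hs
      exact enc_pair _ _ (enc_nat _ _ hm1) (enc_pair _ _
        (fun j => (hs' j).trans hmF) fun j => (hs j).trans hmG)

theorem OL.keep {f : α → β} (hf : OL acc f) : OL acc (fun a => (a, f a)) := by
  obtain ⟨F, hF⟩ := hf
  rw [comp_iff] at hF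
  have lI := F.lI
  have ld := F.ld
  have lq := F.lq
  have lh := F.lh
  have lo := F.lo
  have lC := F.lC
  refine ⟨{ B := α × F.B
            I := fun a => (a, F.I a)
            d := fun p => (p.1.1, F.d (p.1.2, p.2))
            q := fun s => F.q s.2
            h := fun s => F.h s.2
            o := fun s => (s.1, F.o s.2)
            C := fun a => tot a + F.C a
            lI := by fun_prop
            ld := by fun_prop
            lq := by fun_prop
            lh := by fun_prop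
            lo := by fun_prop
            lC := LS.add (LS.tot LS.id) lC }, ?_⟩
  rw [comp_iff]
  intro a
  obtain ⟨s', h1, h2, h3⟩ := hF a
  refine ⟨(a, s'), ?_, h2, ?_⟩
  · refine Rn.map (fun s => (a, s)) (fun s hs => ⟨hs, rfl⟩) ?_ h1
    intro s hs
    exact enc_pair _ _ (fun j => (le_tot a j).trans (Nat.le_add_right _ _))
      fun j => (hs j).trans (Nat.le_add_left _ _)
  · show (a, F.o s') = (a, f a)
    rw [h3]

theorem OL.ls_comp {g : β → γ} {f : α → β} (hg : LS g) (hf : OL acc f) :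
    OL acc (fun a => g (f a)) := OL.comp (OL.of_ls hg) hf

theorem OL.comp_ls {g : β → γ} {f : α → β} (hg : OL acc g) (hf : LS f) :
    OL acc (fun a => g (f a)) := OL.comp hg (OL.of_ls hf)

theorem OL.prodMk {f : α → β} {g : α → γ} (hf : OL acc f) (hg : OL acc g) :
    OL acc (fun a => (f a, g a)) := by
  have h1 : OL acc (fun p : α × β => (p, g p.1)) := OL.keep (OL.comp_ls hg LS.fst)
  have h2 : OL acc (fun a => ((a, f a), g a)) := OL.comp h1 (OL.keep hf)
  exact OL.ls_comp (g := fun z : (α × β) × γ => (z.1.2, z.2)) (by fun_prop) h2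

end Pool.Agent.Helper31.OL
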