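import Pool.Agent.Helper65.LinSpace.Arith2

/-!
# Functions computed by a loop in linear space with one question to an oracle per step
-/

set_option autoImplicit false

namespace Pool.Agent.Helper31.OL

open Pool.Agent.Helper65.LinSpace

variable {κ α β γ : Type} [Ctx κ] [Ctx α] [Ctx β] [Ctx γ]

/-- The answer of the oracle, `0` or `1`. -/
def bit {κ : Type} (acc : κ → ℕ) (z : κ) : ℕ := lt01 0 (acc z)

/-- One step of a loop: the question is `q s`. -/
def stp {κ B : Type} (acc : κ → ℕ) (d : B × ℕ → B) (q : B → κ) (s : B) : B :=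
  d (s, bit acc (q s))

/-- A loop in linear space: the first state `I a`, the step `d`, the question `q`, the condition
`h s ≠ 0` for the end, the result `o s`, and a bound `C a` for all numbers. -/
structure Lp (κ α γ : Type) [Ctx κ] [Ctx α] [Ctx γ] where
  B : Type
  [cB : Ctx B]
  I : α → B
  d : B × ℕ → B
  q : B → κ
  h : B → ℕ
  o : B → γ
  C : α → ℕ
  lI : LS I
  ld : LS d
  lq : LS q
  lh : LS h
  lo : LS o
  lC : LS C

attribute [instance] Lp.cB

/-- The state of the loop after `i` steps. -/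
def Lp.st (M : Lp κ α γ) (acc : κ → ℕ) (a : α) (i : ℕ) : M.B := (stp acc M.d M.q)^[i] (M.I a)

/-- The loop `M` with the oracle `acc` computes `f`. -/
def Lp.Comp (M : Lp κ α γ) (acc : κ → ℕ) (f : α → γ) : Prop :=
  ∀ a, ∃ t, M.h (M.st acc a t) ≠ 0 ∧ (∀ i < t, M.h (M.st acc a i) = 0) ∧
    M.o (M.st acc a t) = f a ∧ ∀ i ≤ t, ∀ j, Ctx.enc (M.st acc a i) j ≤ M.C a

/-- `f` is computed by a loop in linear space with one question to the oracle `acc` per step. -/
def OL (acc : κ → ℕ) (f : α → γ) : Prop := ∃ M : Lp κ α γ, M.Comp acc f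

end Pool.Agent.Helper31.OL
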