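import Pool.Agent.Helper31.OL.Alt
import Pool.Agent.Helper31.Gen5.Main

/-!
# The language with an oracle
-/

set_option autoImplicit false
set_option linter.dupNamespace false

namespace Pool.Agent.Helper31.OL

open Pool.Agent.Helper65 Pool.Agent.Helper65.LinSpace
open Pool.Agent.Helper31.Gen5 Pool.Agent.Helper31.SusD
open Pool.Agent.Helper65.Gen3 (pP hs)
open Pool.Agent.Helper78.Avg (lt01_le_one)
open Finset

variable {κ α β γ : Type} [Ctx κ] [Ctx α] [Ctx β] [Ctx γ] {acc : κ → ℕ}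

/-! ### The polynomial -/

section FR

variable {U : ℕ → ℕ → ℕ → ℕ} (k : ℕ)

/-- The arguments are `x, e, a`. -/
theorem ol_acN (hU : OL acc (fun z : ℕ × ℕ × ℕ => U z.1 z.2.1 z.2.2)) :
    OL acc (fun z : ℕ × ℕ × ℕ => acN U z.1 z.2.1 z.2.2) := by
  unfold acN
  refine OL.sum_le' (α := ℕ × ℕ × ℕ) (acc := acc) (N := fun z => 2 ^ Nat.log 2 z.1)
    (B := fun _ => 1) (f := fun z i => LinSpace.lt01 0 (U z.2.1 z.2.2 (2 ^ Nat.log 2 z.1 + i)))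
    ?_ (Gen5.LS.p2log (by fun_prop)) (LS.const 1) fun z i _ => lt01_le_one _ _
  have h0 : LS (fun z : (ℕ × ℕ × ℕ) × ℕ => 2 ^ Nat.log 2 z.1.1) := Gen5.LS.p2log (by fun_prop)
  exact OL.lt01 (OL.of_ls (LS.const 0)) (OL.comp_ls
    (f := fun z : (ℕ × ℕ × ℕ) × ℕ => (z.1.2.1, z.1.2.2, 2 ^ Nat.log 2 z.1.1 + z.2)) hU
    (by fun_prop))

/-- The arguments are `x, e, a, s`. -/
theorem ol_upN (hU : OL acc (fun z : ℕ × ℕ × ℕ => U z.1 z.2.1 z.2.2)) :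
    OL acc (fun z : ℕ × ℕ × ℕ × ℕ => upN U k z.1 z.2.1 z.2.2.1 z.2.2.2) := by
  unfold upN
  refine OL.sum_le' (α := ℕ × ℕ × ℕ × ℕ) (acc := acc) (N := fun z => 2 ^ Nat.log 2 z.1)
    (B := fun _ => 1) (f := fun z i => LinSpace.lt01 0 (U z.2.1 z.2.2.1 (2 ^ Nat.log 2 z.1 + i)) *
      (hs (pP (Nat.log 2 z.1)) (2 * k) z.2.2.2 i % 2))
    ?_ (Gen5.LS.p2log (by fun_prop)) (LS.const 1) fun z i _ => ?_
  · have h0 : LS (fun z : (ℕ × ℕ × ℕ × ℕ) × ℕ => 2 ^ Nat.log 2 z.1.1) :=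
      Gen5.LS.p2log (by fun_prop)
    refine OL.mul (OL.lt01 (OL.of_ls (LS.const 0)) (OL.comp_ls
      (f := fun z : (ℕ × ℕ × ℕ × ℕ) × ℕ => (z.1.2.1, z.1.2.2.1, 2 ^ Nat.log 2 z.1.1 + z.2)) hU
      (by fun_prop))) (OL.of_ls ?_)
    have h3 : LS (fun z : (ℕ × ℕ × ℕ × ℕ) × ℕ =>
        hs (pP (Nat.log 2 z.1.1)) (2 * k) z.1.2.2.2 z.2) :=
      Pool.Agent.Helper59.Gen3.ls_hs
        (p := fun z : (ℕ × ℕ × ℕ × ℕ) × ℕ => pP (Nat.log 2 z.1.1))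
        (s := fun z => z.1.2.2.2) (z := fun z => z.2) (2 * k)
        (Pool.Agent.Helper59.Gen3.ls_pP (by fun_prop)) (by fun_prop) (by fun_prop)
        fun z => Pool.Agent.Helper59.Gen3.pP_pos _
    exact LS.mod h3 (LS.const 2)
  · have h1 := lt01_le_one 0 (U z.2.1 z.2.2.1 (2 ^ Nat.log 2 z.1 + i))
    have h2 : hs (pP (Nat.log 2 z.1)) (2 * k) z.2.2.2 i % 2 ≤ 1 := by omega
    calc _ ≤ 1 * 1 := Nat.mul_le_mul h1 h2
      _ = 1 := rfl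

theorem ol_vio (hU : OL acc (fun z : ℕ × ℕ × ℕ => U z.1 z.2.1 z.2.2)) :
    OL acc (fun z : ℕ × ℕ × ℕ × ℕ => vio U k z.1 z.2.1 z.2.2.1 z.2.2.2) := by
  unfold vio
  have h1 := ol_upN k hU
  have h2 : OL acc (fun z : ℕ × ℕ × ℕ × ℕ => wtN k z.1 z.2.1 z.2.2.1) :=
    OL.of_ls (Gen5.ls_wtN k (by fun_prop) (by fun_prop) (by fun_prop))
  have h3 : OL acc (fun z : ℕ × ℕ × ℕ × ℕ => acN U z.1 z.2.1 z.2.2.1) :=
    OL.comp_ls (f := fun z : ℕ × ℕ × ℕ × ℕ => (z.1, z.2.1, z.2.2.1)) (ol_acN hU) (by fun_prop)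
  have c2 : OL acc (fun _ : ℕ × ℕ × ℕ × ℕ => 2) := OL.of_ls (LS.const 2)
  exact OL.lt01 (OL.mul h2 (OL.pow_const h3 k))
    (OL.pow_const (OL.add (OL.sub h3 (OL.mul c2 h1)) (OL.sub (OL.mul c2 h1) h3)) (2 * k))

/-- The arguments are `x, s`. -/
theorem ol_badN (hU : OL acc (fun z : ℕ × ℕ × ℕ => U z.1 z.2.1 z.2.2)) :
    OL acc (fun z : ℕ × ℕ => badN U k z.1 z.2) := by
  unfold badN
  refine OL.sum_le' (α := ℕ × ℕ) (acc := acc) (N := fun z => Nat.log 2 z.1 + 1)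
    (B := fun z => 2 ^ (k * Nat.log 2 z.1 + 1))
    (f := fun z e => ∑ a ∈ range (2 ^ (k * Nat.log 2 z.1 + 1)), vio U k z.1 e a z.2)
    ?_ (by fun_prop) (Pool.Agent.Helper59.Gen3.ls_pow_log k (by fun_prop)) fun z i _ => ?_
  · refine OL.sum_le' (α := (ℕ × ℕ) × ℕ) (acc := acc)
      (N := fun z : (ℕ × ℕ) × ℕ => 2 ^ (k * Nat.log 2 z.1.1 + 1)) (B := fun _ => 1)
      (f := fun z a => vio U k z.1.1 z.2 a z.1.2) ?_
      (Pool.Agent.Helper59.Gen3.ls_pow_log k (x := fun z : (ℕ × ℕ) × ℕ => z.1.1) (by fun_prop))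
      (LS.const 1) fun z i _ => lt01_le_one _ _
    exact OL.comp_ls (f := fun z : ((ℕ × ℕ) × ℕ) × ℕ => (z.1.1.1, z.1.2, z.2, z.1.1.2))
      (ol_vio k hU) (by fun_prop)
  · refine (sum_le_sum fun a _ => lt01_le_one _ _).trans ?_
    simp

theorem ol_hid (hU : OL acc (fun z : ℕ × ℕ × ℕ => U z.1 z.2.1 z.2.2)) :
    OL acc (fun x : ℕ => hid U k x) := by
  unfold hid
  refine OL.sum_le' (α := ℕ) (acc := acc) (N := fun x => pP (Nat.log 2 x) ^ (2 * k))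
    (B := fun _ => 1)
    (f := fun x i => LinSpace.ifz (∑ j ∈ range (i + 1), LinSpace.ifz (badN U k x j) 1 0) 1 0) ?_
    (LS.pow_const (Pool.Agent.Helper59.Gen3.ls_pP LS.id) _) (LS.const 1)
    fun z i _ => Pool.Agent.Helper78.Avg.ifz_le_one _
  refine OL.ifz ?_ (OL.of_ls (LS.const 1)) (OL.of_ls (LS.const 0))
  refine OL.sum_le' (α := ℕ × ℕ) (acc := acc) (N := fun z : ℕ × ℕ => z.2 + 1) (B := fun _ => 1)
    (f := fun z j => LinSpace.ifz (badN U k z.1 j) 1 0) ?_ (by fun_prop)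
    (LS.const 1) fun z i _ => Pool.Agent.Helper78.Avg.ifz_le_one _
  exact OL.ifz (OL.comp_ls (f := fun z : (ℕ × ℕ) × ℕ => (z.1.1, z.2)) (ol_badN k hU)
    (by fun_prop)) (OL.of_ls (LS.const 1)) (OL.of_ls (LS.const 0))

theorem ol_FR (hU : OL acc (fun z : ℕ × ℕ × ℕ => U z.1 z.2.1 z.2.2)) : OL acc (FR U k) := by
  unfold FR
  have h1 : LS (fun z : ℕ × ℕ => hs (pP (Nat.log 2 z.1)) (2 * k) z.2 (z.1 - 2 ^ Nat.log 2 z.1) % 2) :=
    LS.mod (Pool.Agent.Helper59.Gen3.ls_hs (α := ℕ × ℕ) (p := fun z => pP (Nat.log 2 z.1)) (2 * k)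
      (Pool.Agent.Helper59.Gen3.ls_pP LS.fst) (by fun_prop)
      (LS.sub (by fun_prop) (Gen5.LS.p2log (by fun_prop)))
      fun x => Pool.Agent.Helper59.Gen3.pP_pos _) (LS.const 2)
  exact OL.ls_comp h1 (OL.keep (ol_hid k hU))

end FR

/-! ### The changes -/

section FF

variable {U : ℕ → ℕ → ℕ} {F₀ : ℕ → ℕ}

/-- The arguments are `N, i`. -/
theorem ol_fw (hU : OL acc (fun z : ℕ × ℕ => U z.1 z.2)) :
    OL acc (fun z : ℕ × ℕ => fw U z.1 z.2) := by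
  unfold fw
  refine OL.lst (α := ℕ × ℕ) (acc := acc) (N := fun z => z.1)
    (p := fun z t => LinSpace.lt01 0 (U (ceb z.2 / 2) (z.1 + t))) (by fun_prop) ?_
    fun a m => lt01_le1 _ _
  have h1 : LS (fun z : (ℕ × ℕ) × ℕ => ceb z.1.2) := Gen5.LS.ceb (by fun_prop)
  exact OL.lt01 (OL.of_ls (LS.const 0)) (OL.comp_ls
    (f := fun z : (ℕ × ℕ) × ℕ => (ceb z.1.2 / 2, z.1.1 + z.2)) hU (by fun_prop))

/-- The arguments are `N, n, s`. -/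
theorem ol_act (hU : OL acc (fun z : ℕ × ℕ => U z.1 z.2)) :
    OL acc (fun z : ℕ × ℕ × ℕ => act U z.1 z.2.1 z.2.2) := by
  unfold act
  refine OL.lst (α := ℕ × ℕ × ℕ) (acc := acc) (N := fun z => z.2.1)
    (p := fun z i => LinSpace.eq01 (dig 2 z.2.2 i) 0 * LinSpace.lt01 (fw U z.1 i) z.1)
    (by fun_prop) ?_ fun a m => mul_le1 (eq01_le1 _ _) (lt01_le1 _ _)
  refine OL.mul (OL.of_ls (by fun_prop)) (OL.lt01 (OL.comp_ls
    (f := fun z : (ℕ × ℕ × ℕ) × ℕ => (z.1.1, z.2)) (ol_fw hU) (by fun_prop))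
    (OL.of_ls (by fun_prop)))

/-- The arguments are `x, n, s`. -/
theorem ol_upd (hU : OL acc (fun z : ℕ × ℕ => U z.1 z.2)) :
    OL acc (fun z : ℕ × ℕ × ℕ => upd U (2 ^ min z.2.1 (Nat.log 2 z.1)) z.2.1
      (min (z.2.1 + 1) (Nat.log 2 z.1)) z.2.2) := by
  have h0 : LS (fun z : ℕ × ℕ × ℕ => 2 ^ min z.2.1 (Nat.log 2 z.1)) :=
    Gen5.LS.pmin (by fun_prop) (by fun_prop)
  have h1 : OL acc (fun z : ℕ × ℕ × ℕ => act U (2 ^ min z.2.1 (Nat.log 2 z.1)) z.2.1 z.2.2) :=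
    OL.comp_ls (f := fun z : ℕ × ℕ × ℕ => (2 ^ min z.2.1 (Nat.log 2 z.1), z.2.1, z.2.2))
      (ol_act hU) (by fun_prop)
  have h2 : LS (fun p : (ℕ × ℕ × ℕ) × ℕ => tab 2 (min (p.1.2.1 + 1) (Nat.log 2 p.1.1)) fun j =>
      LinSpace.ifz (LinSpace.eq01 j p.2 * LinSpace.lt01 p.2 p.1.2.1) (dig 2 p.1.2.2 j) 1) := by
    refine LS.tab (q := fun _ => 2) (m := fun p : (ℕ × ℕ × ℕ) × ℕ =>
      min (p.1.2.1 + 1) (Nat.log 2 p.1.1)) (C := fun p => p.1.1 + 1)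
      (d := fun p j => LinSpace.ifz (LinSpace.eq01 j p.2 * LinSpace.lt01 p.2 p.1.2.1)
        (dig 2 p.1.2.2 j) 1) (by fun_prop) (LS.const 2) (by fun_prop) (by fun_prop) ?_
        fun p => two_pow_min_le _ _
    intro a j _
    have := dig_lt (q := 2) (by norm_num) a.1.2.2 j
    unfold LinSpace.ifz
    split_ifs <;> omega
  have h3 := OL.ls_comp h2 (OL.keep h1)
  exact h3

theorem ol_stx (hU : OL acc (fun z : ℕ × ℕ => U z.1 z.2)) :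
    OL acc (fun x : ℕ => stx U x (Nat.log 2 x)) := by
  unfold stx
  exact OL.nrec (α := ℕ) (acc := acc) (G := fun _ => 0) (N := fun x => Nat.log 2 x)
    (C := fun x => x + 1)
    (K := fun x n s => upd U (2 ^ min n (Nat.log 2 x)) n (min (n + 1) (Nat.log 2 x)) s)
    (OL.of_ls (LS.const 0)) (OL.of_ls (by fun_prop)) (by fun_prop) (ol_upd hU)
    fun x i _ => stx_lt x i

theorem ol_FF (hU : OL acc (fun z : ℕ × ℕ => U z.1 z.2)) (hF : OL acc F₀) :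
    OL acc (FF U F₀) := by
  unfold FF
  have h0 : LS (fun x : ℕ => 2 ^ Nat.log 2 x) := Gen5.LS.p2log LS.id
  have h2' := OL.comp (ol_act hU) (OL.prodMk (OL.of_ls (acc := acc) h0)
    (OL.prodMk (OL.of_ls (LS.log2 LS.id)) (ol_stx hU)))
  have h2 : OL acc (fun x : ℕ => act U (2 ^ Nat.log 2 x) (Nat.log 2 x)
      (stx U x (Nat.log 2 x))) := h2'
  have h3 := OL.comp (ol_fw hU) (OL.prodMk (OL.of_ls h0) h2)
  have h4 : OL acc (fun x : ℕ => Nat.log 2 x) := OL.of_ls (by fun_prop)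
  refine OL.ifz (OL.mul (OL.lt01 h2 h4) (OL.eq01 (OL.of_ls LS.id)
    (OL.add (OL.of_ls h0) h3))) hF ?_
  exact OL.mod (OL.ls_comp (g := ceb) (Gen5.LS.ceb LS.id) h2) (OL.of_ls (LS.const 2))

end FF

end Pool.Agent.Helper31.OL
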