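import Pool.Agent.Helper31.OL.Basic
import Pool.Agent.Helper31.SusD.Grd

/-!
# Bounded recursion, sums, least numbers, tables
-/

set_option autoImplicit false
set_option linter.dupNamespace false

namespace Pool.Agent.Helper31.OL

open Pool.Agent.Helper65 Pool.Agent.Helper65.LinSpace

variable {κ α β γ : Type} [Ctx κ] [Ctx α] [Ctx β] [Ctx γ] {acc : κ → ℕ}

theorem OL.rec0 {K : α × ℕ × ℕ → ℕ} (hK : OL acc K) :
    OL acc (fun z : α × ℕ × ℕ × ℕ => nrec (min z.2.1 z.2.2.2)
      (fun i r => min (K (z.1, i, r)) z.2.2.2) z.2.2.1) := by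
  obtain ⟨F, hF⟩ := hK
  rw [comp_iff] at hF
  obtain ⟨k, hk⟩ := LS.growth1 F.lC
  have lI := F.lI
  have ld := F.ld
  have lq := F.lq
  have lh := F.lh
  have lo := F.lo
  refine ⟨{ B := ℕ × (α × ℕ × ℕ) × (ℕ × ℕ) × F.B
            I := fun z => (0, (z.1, z.2.2.1, z.2.2.2), (0, min z.2.1 z.2.2.2), def0 F.B)
            d := fun p => if p.1.1 = 0 then
                (1, p.1.2.1, p.1.2.2.1, F.I (p.1.2.1.1, p.1.2.2.1.1, p.1.2.2.1.2))
              else if F.h p.1.2.2.2 = 0 then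
                (1, p.1.2.1, p.1.2.2.1, F.d (p.1.2.2.2, p.2))
              else (0, p.1.2.1, (p.1.2.2.1.1 + 1, min (F.o p.1.2.2.2) p.1.2.1.2.2), p.1.2.2.2)
            q := fun s => F.q s.2.2.2
            h := fun s => ifz s.1 (le01 s.2.1.2.1 s.2.2.1.1) 0
            o := fun s => s.2.2.1.2
            C := fun z => 1 + tot z + (tot z + 2) ^ k
            lI := by fun_prop
            ld := LS.ite (by fun_prop) (by fun_prop) (LS.ite (by fun_prop) (by fun_prop)
              (by fun_prop))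
            lq := by fun_prop
            lh := by fun_prop
            lo := by fun_prop
            lC := LS.add (LS.add (LS.const 1) (LS.tot LS.id))
              (LS.pow_const (LS.add (LS.tot LS.id) (LS.const 2)) k) }, ?_⟩
  rw [comp_iff]
  rintro ⟨a, g, n, c⟩
  have hz := le_tot (a, g, n, c)
  have ha : ∀ j, Ctx.enc a j ≤ tot (a, g, n, c) := enc_fst hz
  have hn : n ≤ tot (a, g, n, c) := nat_le_enc (enc_fst (enc_snd (enc_snd hz)))
  have hc : c ≤ tot (a, g, n, c) := nat_le_enc (enc_snd (enc_snd (enc_snd hz)))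
  have hT : tot (a, g, n, c) ≤ 1 + tot (a, g, n, c) + (tot (a, g, n, c) + 2) ^ k := by omega
  have h1 : 1 ≤ 1 + tot (a, g, n, c) + (tot (a, g, n, c) + 2) ^ k := by omega
  have hP : (tot (a, g, n, c) + 2) ^ k ≤ 1 + tot (a, g, n, c) + (tot (a, g, n, c) + 2) ^ k := by
    omega
  obtain ⟨R, hR⟩ : ∃ R : ℕ → ℕ, R = nrec (min g c) (fun i r => min (K (a, i, r)) c) := ⟨_, rfl⟩
  have hRc : ∀ i, R i ≤ c := by
    rintro (_ | i)
    · rw [hR]
      exact min_le_right _ _
    · rw [hR, nrec_succ]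
      exact min_le_right _ _
  -- bounds of the states
  have hbd : ∀ (t i : ℕ) (b : F.B), t ≤ 1 → i ≤ n → (∀ j, Ctx.enc b j ≤ 1 + tot (a, g, n, c) +
      (tot (a, g, n, c) + 2) ^ k) → ∀ j, Ctx.enc ((t, (a, n, c), (i, R i), b) :
        ℕ × (α × ℕ × ℕ) × (ℕ × ℕ) × F.B) j ≤ 1 + tot (a, g, n, c) +
      (tot (a, g, n, c) + 2) ^ k := by
    intro t i b ht hi hb
    refine enc_pair _ _ (enc_nat _ _ (ht.trans h1)) (enc_pair _ _ (enc_pair _ _
      (fun j => (ha j).trans hT) (enc_pair _ _ (enc_nat _ _ (hn.trans hT))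
        (enc_nat _ _ (hc.trans hT)))) (enc_pair _ _ (enc_pair _ _
        (enc_nat _ _ ((hi.trans hn).trans hT)) (enc_nat _ _ (((hRc i).trans hc).trans hT))) hb))
  have key : ∀ i ≤ n, ∃ b : F.B, (∀ j, Ctx.enc b j ≤ 1 + tot (a, g, n, c) +
      (tot (a, g, n, c) + 2) ^ k) ∧ Rn (stp acc (fun p : (ℕ × (α × ℕ × ℕ) × (ℕ × ℕ) × F.B) × ℕ =>
        if p.1.1 = 0 then
                (1, p.1.2.1, p.1.2.2.1, F.I (p.1.2.1.1, p.1.2.2.1.1, p.1.2.2.1.2))
              else if F.h p.1.2.2.2 = 0 then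
                (1, p.1.2.1, p.1.2.2.1, F.d (p.1.2.2.2, p.2))
              else (0, p.1.2.1, (p.1.2.2.1.1 + 1, min (F.o p.1.2.2.2) p.1.2.1.2.2), p.1.2.2.2))
        (fun s : ℕ × (α × ℕ × ℕ) × (ℕ × ℕ) × F.B => F.q s.2.2.2))
        (fun s : ℕ × (α × ℕ × ℕ) × (ℕ × ℕ) × F.B => ifz s.1 (le01 s.2.1.2.1 s.2.2.1.1) 0)
        (1 + tot (a, g, n, c) + (tot (a, g, n, c) + 2) ^ k)
        (0, (a, n, c), (0, min g c), def0 F.B) (0, (a, n, c), (i, R i), b) := by
    intro i
    induction i with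
    | zero =>
      intro _
      refine ⟨def0 F.B, fun j => (enc_def0 j).trans_le (Nat.zero_le _), ?_⟩
      have e0 : R 0 = min g c := by rw [hR, nrec_zero]
      have h2 := hbd 0 0 (def0 F.B) (Nat.zero_le _) (Nat.zero_le _)
        fun j => (enc_def0 j).trans_le (Nat.zero_le _)
      rw [e0] at h2 ⊢
      exact Rn.refl _ h2
    | succ i ih =>
      intro hi
      obtain ⟨b, hb, hr⟩ := ih (by omega)
      obtain ⟨s', h2, h3, h4⟩ := hF (a, i, R i)
      have hFC : F.C (a, i, R i) ≤ (tot (a, g, n, c) + 2) ^ k := by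
        refine hk _ _ (enc_pair _ _ ha (enc_pair _ _ (enc_nat _ _ ?_) (enc_nat _ _ ?_)))
        · exact (show i ≤ n by omega).trans hn
        · exact (hRc i).trans hc
      have hs' : ∀ j, Ctx.enc s' j ≤ 1 + tot (a, g, n, c) + (tot (a, g, n, c) + 2) ^ k :=
        fun j => (h2.bound j).trans (hFC.trans hP)
      refine ⟨s', hs', hr.trans (Rn.step _ _ ?_ (hbd 0 i b (Nat.zero_le _) (by omega) hb) ?_)⟩
      · show ifz 0 (le01 n i) 0 = 0
        unfold ifz le01
        rw [if_pos rfl, if_neg (by omega)]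
      · have e1 : stp acc (fun p : (ℕ × (α × ℕ × ℕ) × (ℕ × ℕ) × F.B) × ℕ =>
            if p.1.1 = 0 then
                (1, p.1.2.1, p.1.2.2.1, F.I (p.1.2.1.1, p.1.2.2.1.1, p.1.2.2.1.2))
              else if F.h p.1.2.2.2 = 0 then
                (1, p.1.2.1, p.1.2.2.1, F.d (p.1.2.2.2, p.2))
              else (0, p.1.2.1, (p.1.2.2.1.1 + 1, min (F.o p.1.2.2.2) p.1.2.1.2.2), p.1.2.2.2))
            (fun s : ℕ × (α × ℕ × ℕ) × (ℕ × ℕ) × F.B => F.q s.2.2.2)
            (0, (a, n, c), (i, R i), b) = (1, (a, n, c), (i, R i), F.I (a, i, R i)) := by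
          unfold stp
          simp only [if_true]
        rw [e1]
        refine Rn.trans (s' := (1, (a, n, c), (i, R i), s')) ?_ (Rn.step _ _ ?_ ?_ ?_)
        · refine Rn.map (fun s => (1, (a, n, c), (i, R i), s)) ?_ ?_ h2
          · intro s hs
            refine ⟨?_, ?_⟩
            · show ifz 1 _ 0 = 0
              unfold ifz
              rw [if_neg one_ne_zero]
            · unfold stp
              simp only [one_ne_zero, if_false, hs, if_true]
          · intro s hs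
            exact hbd 1 i s le_rfl (by omega) fun j => (hs j).trans (hFC.trans hP)
        · show ifz 1 _ 0 = 0
          unfold ifz
          rw [if_neg one_ne_zero]
        · exact hbd 1 i s' le_rfl (by omega) hs'
        · have e2 : stp acc (fun p : (ℕ × (α × ℕ × ℕ) × (ℕ × ℕ) × F.B) × ℕ =>
            if p.1.1 = 0 then
                (1, p.1.2.1, p.1.2.2.1, F.I (p.1.2.1.1, p.1.2.2.1.1, p.1.2.2.1.2))
              else if F.h p.1.2.2.2 = 0 then
                (1, p.1.2.1, p.1.2.2.1, F.d (p.1.2.2.2, p.2))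
              else (0, p.1.2.1, (p.1.2.2.1.1 + 1, min (F.o p.1.2.2.2) p.1.2.1.2.2), p.1.2.2.2))
            (fun s : ℕ × (α × ℕ × ℕ) × (ℕ × ℕ) × F.B => F.q s.2.2.2)
            (1, (a, n, c), (i, R i), s') = (0, (a, n, c), (i + 1, R (i + 1)), s') := by
            have e3 : R (i + 1) = min (K (a, i, R i)) c := by
              rw [hR, nrec_succ]
            unfold stp
            simp only [one_ne_zero, if_false, h3, h4, e3]
          rw [e2]
          exact Rn.refl _ (hbd 0 (i + 1) s' (Nat.zero_le _) hi hs')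
  obtain ⟨b, _, hr⟩ := key n le_rfl
  refine ⟨(0, (a, n, c), (n, R n), b), hr, ?_, ?_⟩
  · show ifz 0 (le01 n n) 0 ≠ 0
    unfold ifz le01
    rw [if_pos rfl, if_pos le_rfl]
    exact one_ne_zero
  · show R n = _
    rw [hR]

theorem OL.nrec {G N C : α → ℕ} {K : α → ℕ → ℕ → ℕ} (hG : OL acc G) (hN : OL acc N) (hC : LS C)
    (hK : OL acc (fun p : α × ℕ × ℕ => K p.1 p.2.1 p.2.2))
    (hb : ∀ a, ∀ i ≤ N a, nrec (G a) (K a) i ≤ C a) : OL acc (fun a => nrec (G a) (K a) (N a)) := by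
  have h1 := OL.comp (OL.rec0 hK) (OL.prodMk (OL.of_ls (acc := acc) (LS.id (α := α)))
    (OL.prodMk hG (OL.prodMk hN (OL.of_ls hC))))
  refine OL.congr h1 fun a => ?_
  show _ = LinSpace.nrec (min (G a) (C a)) (fun i r => min (K a i r) (C a)) (N a)
  have h2 : ∀ i ≤ N a, LinSpace.nrec (min (G a) (C a)) (fun i r => min (K a i r) (C a)) i =
      LinSpace.nrec (G a) (K a) i := by
    intro i
    induction i with
    | zero =>
      intro _
      rw [nrec_zero, nrec_zero]
      exact min_eq_left (hb a 0 (Nat.zero_le _))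
    | succ i ih =>
      intro hi
      rw [nrec_succ, nrec_succ, ih (by omega)]
      refine min_eq_left ?_
      have h3 := hb a (i + 1) hi
      rwa [nrec_succ] at h3
  exact (h2 _ le_rfl).symm

theorem OL.lift2 {g : ℕ × ℕ → ℕ} (hg : LS g) {f f' : α → ℕ} (hf : OL acc f) (hf' : OL acc f') :
    OL acc (fun a => g (f a, f' a)) := OL.ls_comp hg (OL.prodMk hf hf')

theorem OL.add {f g : α → ℕ} (hf : OL acc f) (hg : OL acc g) : OL acc (fun a => f a + g a) :=
  OL.lift2 (g := fun p => p.1 + p.2) (by fun_prop) hf hg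

theorem OL.sub {f g : α → ℕ} (hf : OL acc f) (hg : OL acc g) : OL acc (fun a => f a - g a) :=
  OL.lift2 (g := fun p => p.1 - p.2) (by fun_prop) hf hg

theorem OL.mul {f g : α → ℕ} (hf : OL acc f) (hg : OL acc g) : OL acc (fun a => f a * g a) :=
  OL.lift2 (g := fun p => p.1 * p.2) (by fun_prop) hf hg

theorem OL.mod {f g : α → ℕ} (hf : OL acc f) (hg : OL acc g) : OL acc (fun a => f a % g a) :=
  OL.lift2 (g := fun p => p.1 % p.2) (by fun_prop) hf hg

theorem OL.div {f g : α → ℕ} (hf : OL acc f) (hg : OL acc g) : OL acc (fun a => f a / g a) :=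
  OL.lift2 (g := fun p => p.1 / p.2) (by fun_prop) hf hg

theorem OL.lt01 {f g : α → ℕ} (hf : OL acc f) (hg : OL acc g) :
    OL acc (fun a => lt01 (f a) (g a)) :=
  OL.lift2 (g := fun p => LinSpace.lt01 p.1 p.2) (by fun_prop) hf hg

theorem OL.eq01 {f g : α → ℕ} (hf : OL acc f) (hg : OL acc g) :
    OL acc (fun a => eq01 (f a) (g a)) :=
  OL.lift2 (g := fun p => LinSpace.eq01 p.1 p.2) (by fun_prop) hf hg

theorem OL.pow_const {f : α → ℕ} (hf : OL acc f) (n : ℕ) : OL acc (fun a => f a ^ n) :=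
  OL.ls_comp (g := fun x : ℕ => x ^ n) (LS.pow_const LS.id n) hf

theorem OL.ifz {c f g : α → ℕ} (hc : OL acc c) (hf : OL acc f) (hg : OL acc g) :
    OL acc (fun a => ifz (c a) (f a) (g a)) :=
  OL.ls_comp (g := fun z : ℕ × ℕ × ℕ => LinSpace.ifz z.1 z.2.1 z.2.2) (by fun_prop)
    (OL.prodMk hc (OL.prodMk hf hg))

theorem OL.ask {q : α → κ} (hq : OL acc q) : OL acc (fun a => bit acc (q a)) :=
  OL.comp OL.ask0 hq

open Finset in
theorem OL.sum_le {f : α → ℕ → ℕ} {N B : α → ℕ} (hf : OL acc (fun p : α × ℕ => f p.1 p.2))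
    (hN : OL acc N) (hNB : LS B) {D : α → ℕ} (hD : LS D) (hND : ∀ a, N a ≤ D a)
    (hb : ∀ a, ∀ i < N a, f a i ≤ B a) :
    OL acc (fun a => ∑ i ∈ range (N a), f a i) := by
  refine OL.congr (OL.nrec (G := fun _ => 0) (N := N) (C := fun a => D a * B a)
    (K := fun a i r => r + f a i) (OL.of_ls (LS.const 0)) hN (LS.mul hD hNB) ?_ ?_)
    (fun a => (nrec_sum _ _).symm)
  · have h1 : OL acc (fun p : α × ℕ × ℕ => f p.1 p.2.1) :=
      OL.comp_ls (g := fun p : α × ℕ => f p.1 p.2) (f := fun p : α × ℕ × ℕ => (p.1, p.2.1)) hf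
        (by fun_prop)
    exact OL.add (OL.of_ls (f := fun p : α × ℕ × ℕ => p.2.2) (by fun_prop)) h1
  · intro a i hi
    rw [nrec_sum]
    refine (sum_le_sum (g := fun _ => B a) fun j hj =>
      hb a j (lt_of_lt_of_le (mem_range.1 hj) hi)).trans ?_
    rw [sum_const, card_range, smul_eq_mul]
    exact Nat.mul_le_mul_right _ (hi.trans (hND a))

open Finset in
/-- The bound `N` in linear space. -/
theorem OL.sum_le' {f : α → ℕ → ℕ} {N B : α → ℕ} (hf : OL acc (fun p : α × ℕ => f p.1 p.2))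
    (hN : LS N) (hB : LS B) (hb : ∀ a, ∀ i < N a, f a i ≤ B a) :
    OL acc (fun a => ∑ i ∈ range (N a), f a i) :=
  OL.sum_le hf (OL.of_ls hN) hB hN (fun _ => le_rfl) hb

open Pool.Agent.Helper31.SusD in
theorem OL.lst {N : α → ℕ} {p : α → ℕ → ℕ} (hN : LS N)
    (hp : OL acc (fun z : α × ℕ => p z.1 z.2)) (h1 : ∀ a m, p a m ≤ 1) :
    OL acc (fun a => lst (N a) (p a)) := by
  unfold Pool.Agent.Helper31.SusD.lst
  refine OL.sum_le' (N := N) (B := fun _ => 1)
    (f := fun a m => LinSpace.eq01 (∑ i ∈ Finset.range (m + 1), p a i) 0) ?_ hN (LS.const 1)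
      fun a i _ => ?_
  · refine OL.eq01 ?_ (OL.of_ls (LS.const 0))
    refine OL.sum_le' (α := α × ℕ) (N := fun z => z.2 + 1) (B := fun _ => 1)
      (f := fun z i => p z.1 i) ?_ (by fun_prop) (LS.const 1)
      fun z i _ => h1 _ _
    exact OL.comp_ls (g := fun z : α × ℕ => p z.1 z.2) (f := fun z : (α × ℕ) × ℕ => (z.1.1, z.2)) hp
      (by fun_prop)
  · unfold LinSpace.eq01
    split_ifs <;> omega

end Pool.Agent.Helper31.OL
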